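import Pool.Agent.N325.DD.UB

/-!
# The fast table computes `V`
-/

set_option autoImplicit false

namespace Pool.Agent.N519.DD

open Pool.Agent.N325.DD

theorem dg_eq (T s : ℕ) : dg T s = T / 64 ^ s % 64 := by
  have h1 : Nat.land (Nat.shiftRight T (6 * s)) 63 = (T >>> (6 * s)) &&& (2 ^ 6 - 1) := rfl
  rw [dg, h1, Nat.and_two_pow_sub_one_eq_mod, Nat.shiftRight_eq_div_pow, pow_mul]
  norm_num

theorem stp_succ (h T k : ℕ) : stp h T (k + 1) = stp h T k + nv h T k * 64 ^ k := by
  have h1 : stp h T (k + 1) = stp h T k + nv h T k <<< (6 * k) := rfl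
  rw [h1, Nat.shiftLeft_eq, pow_mul]
  norm_num

theorem stp_lt (h T : ℕ) (hF : ∀ j, nv h T j < 64) (k : ℕ) : stp h T k < 64 ^ k := by
  induction k with
  | zero => simp [stp]
  | succ k ih =>
    rw [stp_succ, pow_succ]
    have h1 : nv h T k * 64 ^ k ≤ 63 * 64 ^ k := Nat.mul_le_mul_right _ (by have := hF k; omega)
    omega

theorem dg_stp_ge (h T : ℕ) (hF : ∀ j, nv h T j < 64) (k s : ℕ) (hs : k ≤ s) :
    dg (stp h T k) s = 0 := by
  rw [dg_eq, Nat.div_eq_of_lt, Nat.zero_mod]
  exact lt_of_lt_of_le (stp_lt h T hF k) (Nat.pow_le_pow_right (by norm_num) hs)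

theorem dg_stp_lt (h T : ℕ) (hF : ∀ j, nv h T j < 64) (k s : ℕ) (hs : s < k) :
    dg (stp h T k) s = nv h T s := by
  induction k with
  | zero => omega
  | succ k ih =>
    rw [dg_eq, stp_succ]
    rcases Nat.lt_succ_iff_lt_or_eq.1 hs with h1 | h1
    · obtain ⟨m, rfl⟩ := Nat.exists_eq_add_of_lt h1
      have e : nv h T (s + m + 1) * 64 ^ (s + m + 1) =
          64 ^ s * (64 * (nv h T (s + m + 1) * 64 ^ m)) := by ring
      rw [e, Nat.add_mul_div_left _ _ (by positivity), Nat.add_mul_mod_self_left, ← dg_eq]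
      exact ih h1
    · subst h1
      rw [Nat.add_mul_div_right _ _ (by positivity), Nat.div_eq_of_lt (stp_lt h T hF s), zero_add,
        Nat.mod_eq_of_lt (hF s)]

theorem V_le (hs : List ℕ) (s : ℕ) : V hs s ≤ 2 * hs.length := by
  induction hs generalizing s with
  | nil => simp [V]
  | cons h hs ih =>
    rw [V, List.length_cons]
    have h1 := ih s
    have h2 := ih (s + 1)
    have h3 := ih (s + 3 + s % 2)
    refine max_le (by omega) (max_le ?_ ?_)
    · split_ifs <;> omega
    · split_ifs <;> omega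

theorem leL_cons {b h : ℕ} {hs : List ℕ} (hh : leL b (h :: hs) = true) :
    h ≤ b ∧ leL b hs = true := by
  rw [leL, Bool.and_eq_true, Nat.ble_eq] at hh
  exact hh

theorem V_zero (hs : List ℕ) (hh : leL 15 hs = true) (s : ℕ) (hs30 : 30 ≤ s) : V hs s = 0 := by
  induction hs with
  | nil => rfl
  | cons h hs ih =>
    obtain ⟨h1, h2⟩ := leL_cons hh
    rw [V, ih h2, if_neg (by omega), if_neg (by omega)]
    rfl

theorem V_eq_dg (hs : List ℕ) (hlen : hs.length ≤ 31) (hh : leL 15 hs = true) (s : ℕ) :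
    V hs s = dg (tabN 30 hs) s := by
  induction hs generalizing s with
  | nil =>
    rw [dg_eq]
    simp [V, tabN]
  | cons h hs ih =>
    obtain ⟨h1, h2⟩ := leL_cons hh
    have hlen' : hs.length ≤ 31 := by
      rw [List.length_cons] at hlen
      omega
    have ih' := fun s => ih hlen' h2 s
    have hnv : ∀ s, nv h (tabN 30 hs) s = V (h :: hs) s := by
      intro s
      have e : ∀ (a b x : ℕ), cond (Nat.blt a b) x 0 = if a < b then x else 0 := by
        intro a b x
        by_cases hab : a < b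
        · have h3 : Nat.blt a b = true := by
            rw [Nat.blt_eq]
            exact hab
          rw [if_pos hab, h3]
          rfl
        · rw [if_neg hab]
          have h3 : Nat.blt a b = false := by
            rw [← Bool.not_eq_true, Nat.blt_eq]
            exact hab
          rw [h3]
          rfl
      rw [nv, V, e, e, ← ih', ← ih', ← ih']
    have hF : ∀ j, nv h (tabN 30 hs) j < 64 := by
      intro j
      rw [hnv]
      have h3 := V_le (h :: hs) j
      omega
    change V (h :: hs) s = dg (stp h (tabN 30 hs) 30) s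
    rcases lt_or_ge s 30 with h3 | h3
    · rw [dg_stp_lt h _ hF 30 s h3, hnv]
    · rw [dg_stp_ge h _ hF 30 s h3, V_zero _ hh s h3]

theorem V_le_dg (hs : List ℕ) (hlen : hs.length ≤ 31) (hh : leL 15 hs = true) (s : ℕ) :
    V hs s ≤ dg (tabN 30 hs) s := (V_eq_dg hs hlen hh s).le

end Pool.Agent.N519.DD
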